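import Pool.Agent.W2helper44.CP.Main
import Pool.Agent.W2helper66.CP.CLA
import Pool.Agent.W2helper66.CP.CLB
import Pool.Agent.W2helper66.CP.CLC

/-!
# MP_28b04d_gt, Q1: diffeomorphisms of `CP²` which are almost similar on all balls are isotopic

`CP²` is the set of the Hermitian projections of rank one in the complex `3 × 3` matrices, with the
distance of the Frobenius norm; this is the model of the frozen statement.  Two diffeomorphisms `F`
and `G` are `δ`-similar if for each ball `B` of radius `r` there is a factor `l > 0` such that the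
squares of the distances `|F Q - F S|²` and `l |G Q - G S|²` differ by at most `δ l r²` for all `Q`, `S`
with `G Q`, `G S` in `B`.  The factor may depend on the ball, and nothing is assumed about the
derivatives: at small scales the maps `F ∘ G⁻¹` may rotate and stretch arbitrarily much.

The theorem: there is an absolute constant `δ > 0` such that any two `δ`-similar diffeomorphisms are
joined by a smooth path of diffeomorphisms, possibly after composing one of them with the complex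
conjugation (which acts by `-1` on the second homology).

The proof.  By compactness `F ∘ G⁻¹` is close to a distance preserving map of `CP²`, and such a map
is `P ↦ U P U*` or `P ↦ U P̄ U*` with a unitary matrix `U` (Wigner's theorem); unitary matrices are
joined to `1`.  A diffeomorphism `H` near the identity which is `δ`-similar to the identity is joined
to a map which is `C¹`-close to the identity by its mollifications at all scales `r ≤ r₀`,
`ψ_r = ρ(∫ K(v) H(ρ(x + r v)) dv)`, which are diffeomorphisms.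
-/

set_option autoImplicit false

open Set Filter Topology
open scoped ContDiff

noncomputable section

namespace Pool.Agent.Results.MP_28b04d_gt.AlmostSimilarDiffeomorphisms

/-- `CP²`: the Hermitian projections of rank one -/
def CP2 : Set (Fin 3 → Fin 3 → ℂ) :=
  {P | (∀ i j, P j i = star (P i j)) ∧ (∀ i j, ∑ k, P i k * P k j = P i j) ∧ ∑ i, P i i = 1}

/-- the square of the distance (Frobenius norm) -/
def distSq (P Q : Fin 3 → Fin 3 → ℂ) : ℝ := ∑ i, ∑ j, ‖P i j - Q i j‖ ^ 2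

/-- `F` restricts to a diffeomorphism of `CP²` -/
def IsDiffeo (F : (Fin 3 → Fin 3 → ℂ) → (Fin 3 → Fin 3 → ℂ)) : Prop :=
  ContDiff ℝ ∞ F ∧ (∀ P ∈ CP2, F P ∈ CP2) ∧
    ∃ G : (Fin 3 → Fin 3 → ℂ) → (Fin 3 → Fin 3 → ℂ), ContDiff ℝ ∞ G ∧ (∀ P ∈ CP2, G P ∈ CP2) ∧
      (∀ P ∈ CP2, G (F P) = P) ∧ ∀ P ∈ CP2, F (G P) = P

/-- `F₀` and `F₁` are joined by a smooth path of diffeomorphisms of `CP²` -/
def SmoothlyIsotopic (F₀ F₁ : (Fin 3 → Fin 3 → ℂ) → (Fin 3 → Fin 3 → ℂ)) : Prop :=
  ∃ K : ℝ × (Fin 3 → Fin 3 → ℂ) → (Fin 3 → Fin 3 → ℂ), ContDiff ℝ ∞ K ∧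
    (∀ t : ℝ, IsDiffeo fun P => K (t, P)) ∧
    (∀ P ∈ CP2, K (0, P) = F₀ P) ∧ ∀ P ∈ CP2, K (1, P) = F₁ P

/-- `F` and `G` are `δ`-similar: on the preimage under `G` of each ball the distances in the images
under `F` and under `G` are proportional up to the relative error `δ` -/
def AlmostSimilar (δ : ℝ) (F G : (Fin 3 → Fin 3 → ℂ) → (Fin 3 → Fin 3 → ℂ)) : Prop :=
  ∀ P ∈ CP2, ∀ r : ℝ, 0 < r → ∃ l : ℝ, 0 < l ∧ ∀ Q ∈ CP2, ∀ S ∈ CP2,
    distSq (G Q) (G P) ≤ r ^ 2 → distSq (G S) (G P) ≤ r ^ 2 →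
    |distSq (F Q) (F S) - l * distSq (G Q) (G S)| ≤ δ * l * r ^ 2

/-- Diffeomorphisms of `CP²` which are almost similar on all balls are smoothly isotopic, up to the
complex conjugation. -/
theorem result : ∃ δ : ℝ, 0 < δ ∧ ∀ F G : (Fin 3 → Fin 3 → ℂ) → (Fin 3 → Fin 3 → ℂ),
    IsDiffeo F → IsDiffeo G → AlmostSimilar δ F G →
      SmoothlyIsotopic G F ∨ SmoothlyIsotopic (fun P i j => star (G P i j)) F := by
  obtain ⟨δ, hδ, h⟩ := Pool.Agent.W2helper44.CP.fin_of_close
    (Pool.Agent.W2helper44.CP.p_CLC Pool.Agent.W2helper44.CP.p_CLA Pool.Agent.W2helper44.CP.p_CLB)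
  refine ⟨δ, hδ, fun F G hF hG hFG => ?_⟩
  obtain ⟨-, -, -, hcomp, hdcomp, hcongr⟩ :=
    Pool.Agent.W2helper44.CP.p_EQV (Fin 3 → Fin 3 → ℂ) CP2
  have hF' : Pool.Agent.W2helper44.CP.IsDiffeo CP2 F := hF
  have hG' : Pool.Agent.W2helper44.CP.IsDiffeo CP2 G := hG
  obtain ⟨hGs, hGM, Gi, hGi, hGiM, hGiG, hGGi⟩ := hG'
  have hGi' : Pool.Agent.W2helper44.CP.IsDiffeo CP2 Gi := ⟨hGi, hGiM, G, hGs, hGM, hGGi, hGiG⟩
  have hflat : Pool.Agent.W2helper44.CP.FlatC δ (F ∘ Gi) := by
    intro P hP r hr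
    obtain ⟨l, hl, hl2⟩ := hFG (Gi P) (hGiM hP) r hr
    refine ⟨l, hl, fun Q hQ S hS h1 h2 => ?_⟩
    have h3 := hl2 (Gi Q) (hGiM hQ) (Gi S) (hGiM hS)
    rw [hGGi P hP, hGGi Q hQ, hGGi S hS] at h3
    exact h3 h1 h2
  have hback : ∀ P ∈ CP2, ((F ∘ Gi) ∘ G) P = F P := by
    intro P hP
    simp only [Function.comp_apply]
    rw [hGiG P hP]
  rcases h (F ∘ Gi) (hdcomp _ _ hF' hGi') hflat with h1 | h1
  · left
    have h2 := hcomp _ _ G h1 hG
    exact hcongr _ _ _ _ h2 (fun P _ => rfl) (fun P hP => (hback P hP).symm)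
  · right
    have h2 := hcomp _ _ G h1 hG
    exact hcongr _ _ _ _ h2 (fun P _ => rfl) (fun P hP => (hback P hP).symm)

end Pool.Agent.Results.MP_28b04d_gt.AlmostSimilarDiffeomorphisms
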