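import Pool.Agent.W2helper38.AC.All

/-!
# MP_28b04d_gt, Q1: an angle criterion for isotopy of diffeomorphisms of `CP²`

Q1 asks whether every diffeomorphism of `CP²` that acts trivially on homology is smoothly isotopic
to the identity.  The theorem gives an explicit `C¹` condition on two maps `F, F' : CP² → CP²`, `F` a
diffeomorphism, under which `F'` is a diffeomorphism smoothly isotopic to `F`; with `F = id` (or
`F ∈ PU(3)`, or any `F` isotopic to the identity) it answers Q1 for all the maps `F'` that satisfy it.

`CP²` is modelled as in the frozen statement S12917 of the problem: the Hermitian projections of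
trace one in the 3×3 matrices.  For `P, Q` in `CP²` with `tr (P Q) = cos² ℓ`, `0 ≤ ℓ < π/2`, the number
`ℓ` is the distance for the Fubini–Study metric of diameter `π/2`, there is a unique minimal geodesic
from `P` to `Q`, and parallel transport along it is the conjugation by a unitary matrix
`transvection P Q` (the transvection of the symmetric space).  The condition on `F, F'` is that
`F P` and `F' P` are never orthogonal (i.e. never at the maximal distance `π/2`) and that for every
tangent vector `v ≠ 0` the angle between `dF'(v)` and the parallel transport of `dF(v)` has cosine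
greater than `- 2c/(1 + c²)`, `c = cos ℓ`; that is, the angle is less than
`π - arcsin (sin² ℓ / (1 + cos² ℓ))`.  This bound is always larger than `π/2`, and tends to `π` when
`ℓ → 0`.

The proof moves `F P` to `F' P` along the geodesic; the angle bound excludes, by an inequality of
Kantorovich type for the Jacobi fields of `CP²`, that a tangent vector is killed on the way.
-/

set_option autoImplicit false

open Set
open scoped ContDiff Matrix

noncomputable section

namespace Pool.Agent.Results.MP_28b04d_gt.AngleCriterion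

/-- the 3×3 complex matrices (a normed space with the sup norm, as in the frozen statement) -/
abbrev Mat := Fin 3 → Fin 3 → ℂ

/-- the complex projective plane: the Hermitian projections of trace one -/
def CP2 : Set Mat :=
  {P | (∀ i j, P j i = star (P i j)) ∧ (∀ i j, ∑ k, P i k * P k j = P i j) ∧ ∑ i, P i i = 1}

/-- `v` is tangent to `CP²` at `P`: `v* = v` and `P v + v P = v` -/
def IsTangent (P v : Mat) : Prop :=
  (∀ i j, v j i = star (v i j)) ∧ ∀ i j, ∑ k, (P i k * v k j + v i k * P k j) = v i j

/-- the Frobenius norm (on the tangent spaces: `√2` times the Fubini–Study norm) -/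
def frobenius (A : Matrix (Fin 3) (Fin 3) ℂ) : ℝ := √((Aᴴ * A).trace.re)

/-- the cosine of the distance `ℓ` of `P, Q ∈ CP²`: `tr (P Q) = cos² ℓ` -/
def cosDist (P Q : Matrix (Fin 3) (Fin 3) ℂ) : ℝ := √((P * Q).trace.re)

/-- the transvection along the minimal geodesic from `P` to `Q`: if `P = z z*`, `Q = w w*`,
`|z| = |w| = 1`, `z* w = c > 0`, it is the unitary matrix that maps `z` to `w` and `w` to `2 c w - z`
and is the identity on the orthogonal complement of `z, w` -/
def transvection (P Q : Matrix (Fin 3) (Fin 3) ℂ) : Matrix (Fin 3) (Fin 3) ℂ :=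
  1 - ((1 + (cosDist P Q : ℂ))⁻¹) • (P + Q + ((cosDist P Q : ℂ)⁻¹) • (P * Q + Q * P)) +
    (2 * (cosDist P Q : ℂ)⁻¹) • (Q * P)

/-- parallel transport of the tangent vector `v` at `P` along the minimal geodesic from `P` to `Q` -/
def transport (P Q v : Matrix (Fin 3) (Fin 3) ℂ) : Matrix (Fin 3) (Fin 3) ℂ :=
  transvection P Q * v * (transvection P Q)ᴴ

/-- for every `P ∈ CP²` and every tangent vector `v ≠ 0` at `P`, the cosine of the angle between
`dF'(v)` and the parallel transport of `dF(v)` from `F P` to `F' P` is greater than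
`- 2c/(1 + c²)`, `c = cosDist (F P) (F' P)` -/
def AngleCondition (F F' : Mat → Mat) : Prop :=
  ∀ P ∈ CP2, ∀ v : Mat, IsTangent P v → v ≠ 0 →
    -(2 * cosDist (Matrix.of (F P)) (Matrix.of (F' P)) /
          (1 + cosDist (Matrix.of (F P)) (Matrix.of (F' P)) ^ 2) *
        (frobenius (Matrix.of (fderiv ℝ F P v)) * frobenius (Matrix.of (fderiv ℝ F' P v)))) <
      (transport (Matrix.of (F P)) (Matrix.of (F' P)) (Matrix.of (fderiv ℝ F P v)) *
        Matrix.of (fderiv ℝ F' P v)).trace.re

/-- `F` and `F'` are joined by a smooth path of diffeomorphisms of `CP²` (in particular both are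
diffeomorphisms) -/
def SmoothlyIsotopic (F F' : Mat → Mat) : Prop :=
  ∃ K : ℝ × Mat → Mat, ContDiff ℝ ∞ K ∧ (∀ t : ℝ, ∀ P ∈ CP2, K (t, P) ∈ CP2) ∧
    (∀ P ∈ CP2, K (0, P) = F P) ∧ (∀ P ∈ CP2, K (1, P) = F' P) ∧
    ∀ t : ℝ, ∃ L : Mat → Mat, ContDiff ℝ ∞ L ∧
      ∀ P ∈ CP2, L P ∈ CP2 ∧ L (K (t, P)) = P ∧ K (t, L P) = P

/-- A smooth map `F' : CP² → CP²` that satisfies the angle condition with respect to a
diffeomorphism `F` of `CP²` is a diffeomorphism smoothly isotopic to `F`. -/
theorem result (F F' G : Mat → Mat)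
    (hF : ContDiff ℝ ∞ F) (hF' : ContDiff ℝ ∞ F') (hG : ContDiff ℝ ∞ G)
    (hFX : ∀ P ∈ CP2, F P ∈ CP2) (hFX' : ∀ P ∈ CP2, F' P ∈ CP2) (hGX : ∀ P ∈ CP2, G P ∈ CP2)
    (hGF : ∀ P ∈ CP2, G (F P) = P) (hFG : ∀ P ∈ CP2, F (G P) = P)
    (hne : ∀ P ∈ CP2, (Matrix.of (F P) * Matrix.of (F' P)).trace ≠ 0)
    (hA : AngleCondition F F') : SmoothlyIsotopic F F' :=
  Pool.Agent.W2helper38.AC.main F F' G hF hF' hG hFX hFX' hGX hGF hFG hne hA

end Pool.Agent.Results.MP_28b04d_gt.AngleCriterion
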